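import Mathlib
import Pool.Agent.Helper51.MultiplierSequence

open Polynomial

namespace Pool.Agent.Results.MP_13c559_an.LogOverFactorial

/-- A real polynomial has only real zeros: every complex zero of it is real.
(The zero polynomial does not have this property.) -/
def HasOnlyRealZeros (p : ℝ[X]) : Prop := ∀ z : ℂ, aeval z p = 0 → z.im = 0

/-- The linear operator `T` on real polynomials with `T[x^k] = γ_k x^k`. -/
noncomputable def diagonalOperator (γ : ℕ → ℝ) (p : ℝ[X]) : ℝ[X] :=
  ∑ k ∈ p.support, monomial k (γ k * p.coeff k)

/-- `γ` is a (classical) multiplier sequence: whenever a real polynomial `p` has only real zeros,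
`T[p]` has only real zeros (in particular `T[p]` is not the zero polynomial). -/
def IsMultiplierSequence (γ : ℕ → ℝ) : Prop :=
  ∀ p : ℝ[X], HasOnlyRealZeros p → HasOnlyRealZeros (diagonalOperator γ p)

lemma diagonalOperator_eq (γ : ℕ → ℝ) (p : ℝ[X]) :
    diagonalOperator γ p = Pool.Agent.Helper51.Mult.diag γ p := by
  unfold diagonalOperator Pool.Agent.Helper51.Mult.diag
  have h1 : ∑ k ∈ p.support, monomial k (γ k * p.coeff k) =
      ∑ k ∈ Finset.range (p.natDegree + 1), monomial k (γ k * p.coeff k) := by
    apply Finset.sum_subset
    · intro k hk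
      rw [Finset.mem_range]
      have := le_natDegree_of_mem_supp k hk
      omega
    · intro k _ hk
      rw [notMem_support_iff.mp hk]
      simp
  rw [h1]
  refine Finset.sum_congr rfl fun k _ => ?_
  rw [C_mul_X_pow_eq_monomial]

/-- The sequence `(ln (k + 2) / k!)_{k ≥ 0}` is a multiplier sequence. -/
theorem result :
    IsMultiplierSequence (fun k : ℕ => Real.log ((k : ℝ) + 2) / (k.factorial : ℝ)) := by
  intro p hp
  rw [diagonalOperator_eq]
  exact Pool.Agent.Helper51.Mult.orz_diag_of_posFun
    (φ := fun k => Real.log ((k : ℝ) + 2))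
    (fun k => Real.log_pos (by have : (0 : ℝ) ≤ k := by positivity
                               linarith))
    Pool.Agent.Helper51.Mult.posFun_log hp

end Pool.Agent.Results.MP_13c559_an.LogOverFactorial
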